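import Pool.Agent.K1H34.HYC.Stm

/-!
# HYC: the sparse stage

`S_SUB -> S_NAIVE -> S_GCL -> S_ST1`.
-/

set_option autoImplicit false
open Classical Finset
open Pool.Agent.K1H34.HYC

namespace Pool.Agent.K1H4.HYC

theorem large (a : ℕ) : ∃ D0 : ℕ, ∀ D : ℕ, D0 ≤ D → 3 ≤ D ∧
    (Real.log D) ^ 2 * Real.sqrt D ≤ D / 2 ^ (a + 15) := by
  have h := (Real.isLittleO_pow_log_id_atTop (n := 4))
  have h2 := h.bound (c := 1 / 2 ^ (2 * (a + 15))) (by positivity)
  have h3 := (tendsto_natCast_atTop_atTop (R := ℝ)).eventually h2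
  obtain ⟨N, hN⟩ := Filter.eventually_atTop.mp h3
  refine ⟨max N 3, fun D hD => ⟨le_trans (le_max_right _ _) hD, ?_⟩⟩
  have h4 := hN D (le_trans (le_max_left _ _) hD)
  simp only [id] at h4
  have hD0 : (0 : ℝ) ≤ D := Nat.cast_nonneg D
  rw [Real.norm_eq_abs, Real.norm_eq_abs, abs_of_nonneg hD0] at h4
  have h5 : (Real.log D) ^ 4 ≤ 1 / 2 ^ (2 * (a + 15)) * D := le_trans (le_abs_self _) h4
  have hs : Real.sqrt D ^ 2 = D := Real.sq_sqrt hD0
  have hs0 : 0 ≤ Real.sqrt D := Real.sqrt_nonneg _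
  have h6 : ((Real.log D) ^ 2) ^ 2 ≤ (Real.sqrt D / 2 ^ (a + 15)) ^ 2 := by
    rw [div_pow, hs, ← pow_mul, ← pow_mul, mul_comm (a + 15) 2]
    have h51 : (1 : ℝ) / 2 ^ (2 * (a + 15)) * (D : ℝ) = (D : ℝ) / 2 ^ (2 * (a + 15)) := by ring
    rw [← h51]
    exact h5
  have h7 : (Real.log D) ^ 2 ≤ Real.sqrt D / 2 ^ (a + 15) :=
    (pow_le_pow_iff_left₀ (by positivity) (by positivity) (by norm_num)).mp h6
  calc (Real.log D) ^ 2 * Real.sqrt D ≤ Real.sqrt D / 2 ^ (a + 15) * Real.sqrt D :=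
        mul_le_mul_of_nonneg_right h7 hs0
    _ = Real.sqrt D ^ 2 / 2 ^ (a + 15) := by ring
    _ = D / 2 ^ (a + 15) := by rw [hs]

theorem one_le_logsq {D : ℕ} (hD : 3 ≤ D) : 1 ≤ (Real.log D) ^ 2 := by
  have h1 : (1 : ℝ) ≤ Real.log D := by
    rw [Real.le_log_iff_exp_le (by positivity)]
    have h2 : Real.exp 1 < 2.7182818286 := Real.exp_one_lt_d9
    have h3 : (3 : ℝ) ≤ D := by exact_mod_cast hD
    linarith
  nlinarith

section

variable {X : Type}

theorem sum_adj [Fintype X] (G : SimpleGraph X) (A : Finset X) (x : X) :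
    ∑ y ∈ A, (if G.Adj x y then (1 : ℝ) else 0) = dg G A x := by
  simp [dg]

theorem sum_row (P : Finset (X × ℕ)) (A : Finset X) :
    ∑ y ∈ A, row P y = (P.filter (fun z => z.1 ∈ A)).card := by
  rw [Finset.card_eq_sum_card_fiberwise (f := Prod.fst) (t := A)]
  · apply Finset.sum_congr rfl
    intro y hy
    unfold row
    congr 1
    ext z
    simp only [mem_filter]
    constructor
    · rintro ⟨h1, h2⟩
      exact ⟨⟨h1, h2 ▸ hy⟩, h2⟩
    · rintro ⟨⟨h1, -⟩, h2⟩
      exact ⟨h1, h2⟩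
  · intro z hz
    exact (mem_filter.mp hz).2

theorem supp_row [Fintype X] (P : Finset (X × ℕ)) :
    (univ.filter (fun x => (row P x : ℝ) ≠ 0)).card ≤ P.card := by
  refine le_trans (card_le_card (t := P.image Prod.fst) ?_) card_image_le
  intro x hx
  have h1 := (mem_filter.mp hx).2
  have h2 : row P x ≠ 0 := by
    intro h0
    exact h1 (by rw [h0]; norm_num)
  obtain ⟨z, hz⟩ := Finset.card_pos.mp (Nat.pos_of_ne_zero h2)
  have h3 := mem_filter.mp hz
  exact mem_image.mpr ⟨z, h3.1, h3.2⟩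

theorem dg_mono [Fintype X] (G : SimpleGraph X) {A B : Finset X} (h : A ⊆ B) (x : X) : dg G A x ≤ dg G B x :=
  card_le_card (filter_subset_filter _ h)

theorem dg_split [Fintype X] (G : SimpleGraph X) {A B : Finset X} (h : A ⊆ B) (x : X) :
    dg G (B.filter (fun y => y ∉ A)) x + dg G A x = dg G B x := by
  unfold dg
  rw [← card_union_of_disjoint]
  · congr 1
    ext y
    simp only [mem_union, mem_filter]
    constructor
    · rintro (⟨⟨h1, -⟩, h2⟩ | ⟨h1, h2⟩)
      · exact ⟨h1, h2⟩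
      · exact ⟨h h1, h2⟩
    · rintro ⟨h1, h2⟩
      by_cases h3 : y ∈ A
      · exact Or.inr ⟨h3, h2⟩
      · exact Or.inl ⟨⟨h1, h3⟩, h2⟩
  · rw [disjoint_left]
    intro y h1 h2
    exact (mem_filter.mp (mem_filter.mp h1).1).2 (mem_filter.mp h2).1

end

theorem bound {a D ρ : ℕ} {t : ℝ} (hD : 3 ≤ D)
    (hlog : (Real.log D) ^ 2 * Real.sqrt D ≤ D / 2 ^ (a + 15)) (hρ : 1 ≤ ρ) (_ht0 : 0 ≤ t)
    (ht : t ≤ D * ρ) :
    t / 2 ^ (a + 15) + Real.sqrt ((Real.log D) ^ 2 * t) * Real.log D ≤ D * ρ / 2 ^ (a + 14) := by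
  have hl0 : 0 ≤ Real.log D := Real.log_nonneg (by exact_mod_cast (by omega : 1 ≤ D))
  have hρ1 : (1 : ℝ) ≤ ρ := by exact_mod_cast hρ
  have hD0 : (0 : ℝ) ≤ D := Nat.cast_nonneg D
  have h1 : Real.sqrt ((Real.log D) ^ 2 * t) = Real.log D * Real.sqrt t := by
    rw [Real.sqrt_mul (by positivity), Real.sqrt_sq hl0]
  have h2 : Real.sqrt t ≤ Real.sqrt D * ρ := by
    rw [Real.sqrt_le_left (by positivity), mul_pow, Real.sq_sqrt hD0]
    refine le_trans ht (mul_le_mul_of_nonneg_left ?_ hD0)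
    nlinarith
  have h3 : Real.sqrt ((Real.log D) ^ 2 * t) * Real.log D ≤ D / 2 ^ (a + 15) * ρ := by
    rw [h1]
    calc Real.log D * Real.sqrt t * Real.log D = (Real.log D) ^ 2 * Real.sqrt t := by ring
      _ ≤ (Real.log D) ^ 2 * (Real.sqrt D * ρ) := mul_le_mul_of_nonneg_left h2 (by positivity)
      _ = ((Real.log D) ^ 2 * Real.sqrt D) * ρ := by ring
      _ ≤ D / 2 ^ (a + 15) * ρ := mul_le_mul_of_nonneg_right hlog (by linarith)
  have h4 : t / 2 ^ (a + 15) ≤ D * ρ / 2 ^ (a + 15) := by gcongr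
  have h5 : (D : ℝ) * ρ / 2 ^ (a + 14) = D * ρ / 2 ^ (a + 15) + D / 2 ^ (a + 15) * ρ := by
    rw [pow_succ 2 (a + 14)]
    field_simp
    ring
  rw [h5]
  linarith

theorem part_sub (hS : S_SUB) (a : ℕ) : ∃ D0 : ℕ, ∀ D : ℕ, D0 ≤ D →
    ∀ (X O : Type) [Fintype X] [Fintype O]
    (G : SimpleGraph X) (S Sst : Finset X) (P : O → Finset (X × ℕ)) (r : O → ℕ),
    (∀ x, dg G univ x ≤ D) →
    (∀ v ∈ Sst, (D : ℝ) ^ 2 / 2 ^ (a + 2) ≤ (np G S v).card) →
    (∀ o, 1 ≤ r o) → (∀ o, (P o).card ≤ D * r o) → (∀ o, (P o).card ≤ D ^ 4) →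
    (∀ o x, (row (P o) x : ℝ) ≤ (Real.log D) ^ 2) →
    (∀ x, (univ.filter (fun o => row (P o) x ≠ 0)).card ≤ D ^ 3) →
    ∃ A ⊆ S, (∀ x, dg G A x * 2 ^ (a + 14) ≤ D) ∧
      (∀ o, ((P o).filter (fun z => z.1 ∈ A)).card * 2 ^ (a + 14) ≤ D * r o) ∧
      ∀ v ∈ Sst, D ^ 2 ≤ 2 ^ (3 * a + 33) * (np G A v).card := by
  obtain ⟨D1, h1⟩ := hS (a + 15) (a + 2)
  obtain ⟨D2, h2⟩ := large a
  refine ⟨max D1 D2, ?_⟩
  intro D hD X O _ _ G S Sst P r hdeg hst hr hP1 hP2 hrow hcnt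
  obtain ⟨hD3, hlog⟩ := h2 D (le_trans (le_max_right _ _) hD)
  have hB := one_le_logsq hD3
  have hD4 : D ≤ D ^ 4 := Nat.le_self_pow (by norm_num) D
  have hD34 : D + D ^ 3 ≤ D ^ 4 := by
    have : 1 + D ^ 2 ≤ D ^ 3 := by nlinarith [sq_nonneg (D : ℤ), Nat.zero_le (D ^ 2)]
    calc D + D ^ 3 = D * (1 + D ^ 2) := by ring
      _ ≤ D * D ^ 3 := Nat.mul_le_mul_left _ this
      _ = D ^ 4 := by ring
  obtain ⟨A, hAS, hA1, hA2⟩ := h1 D (le_trans (le_max_left _ _) hD) X (X ⊕ O) G S Sst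
    (fun j x => Sum.elim (fun y => if G.Adj y x then (1 : ℝ) else 0)
      (fun o => (row (P o) x : ℝ)) j)
    ((Real.log D) ^ 2) (by linarith) (by
      rintro (y | o) x
      · simp only [Sum.elim_inl]
        split_ifs
        · exact ⟨zero_le_one, hB⟩
        · exact ⟨le_refl _, by linarith⟩
      · simp only [Sum.elim_inr]
        exact ⟨Nat.cast_nonneg _, hrow o x⟩) (by
      rintro (y | o)
      · simp only [Sum.elim_inl]
        refine le_trans (le_trans (card_le_card ?_) (hdeg y)) hD4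
        intro x hx
        have h3 := (mem_filter.mp hx).2
        refine mem_filter.mpr ⟨mem_univ _, ?_⟩
        by_contra h4
        exact h3 (if_neg h4)
      · simp only [Sum.elim_inr]
        exact le_trans (supp_row (P o)) (hP2 o)) (by
      intro x
      refine le_trans ?_ hD34
      refine le_trans ?_ (Nat.add_le_add (hdeg x) (hcnt x))
      unfold dg
      rw [← card_disjSum]
      apply card_le_card
      rintro (y | o) hy
      · have h3 := (mem_filter.mp hy).2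
        simp only [Sum.elim_inl] at h3
        rw [inl_mem_disjSum]
        refine mem_filter.mpr ⟨mem_univ _, ?_⟩
        by_contra h4
        exact h3 (if_neg (fun h5 => h4 h5.symm))
      · have h3 := (mem_filter.mp hy).2
        simp only [Sum.elim_inr] at h3
        rw [inr_mem_disjSum]
        refine mem_filter.mpr ⟨mem_univ _, ?_⟩
        intro h4
        exact h3 (by rw [h4]; norm_num)) hdeg hst
  refine ⟨A, hAS, ?_, ?_, ?_⟩
  · intro x
    have h3 := hA1 (Sum.inl x)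
    simp only [Sum.elim_inl] at h3
    rw [sum_adj, sum_adj] at h3
    have h4 : (dg G A x : ℝ) ≤ D * (1 : ℕ) / 2 ^ (a + 14) :=
      le_trans h3 (bound hD3 hlog (le_refl 1) (Nat.cast_nonneg _) (by
        rw [Nat.cast_one, mul_one]
        exact_mod_cast hdeg x))
    rw [le_div_iff₀ (by positivity), Nat.cast_one, mul_one] at h4
    exact_mod_cast h4
  · intro o
    have h3 := hA1 (Sum.inr o)
    simp only [Sum.elim_inr] at h3
    rw [← Nat.cast_sum, ← Nat.cast_sum, sum_row, sum_row] at h3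
    have h5 : ((P o).filter (fun z => z.1 ∈ (univ : Finset X))) = P o :=
      filter_true_of_mem (fun _ _ => mem_univ _)
    rw [h5] at h3
    have h4 : (((P o).filter (fun z => z.1 ∈ A)).card : ℝ) ≤ D * (r o) / 2 ^ (a + 14) :=
      le_trans h3 (bound hD3 hlog (hr o) (Nat.cast_nonneg _) (by exact_mod_cast hP1 o))
    rw [le_div_iff₀ (by positivity)] at h4
    exact_mod_cast h4
  · intro v hv
    have h3 := hA2 v hv
    have h4 := hst v hv
    have h5 : (D : ℝ) ^ 2 / 2 ^ (3 * a + 33) ≤ (np G A v).card := by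
      refine le_trans (le_of_eq ?_) (le_trans (div_le_div_of_nonneg_right h4
        (by positivity : (0 : ℝ) ≤ 2 ^ (2 * (a + 15) + 1))) h3)
      rw [div_div, ← pow_add]
      congr 2
      omega
    rw [div_le_iff₀ (by positivity)] at h5
    have h6 : ((D ^ 2 : ℕ) : ℝ) ≤ ((2 ^ (3 * a + 33) * (np G A v).card : ℕ) : ℝ) := by
      push_cast
      linarith
    exact_mod_cast h6

/-- the graph induced on the vertices of `S` outside `A` -/
noncomputable def Gi {X : Type} (G : SimpleGraph X) (S A : Finset X) :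
    SimpleGraph {x : X // x ∈ S ∧ x ∉ A} := G.comap Subtype.val

theorem inj1 {X : Type} {S A : Finset X} :
    Function.Injective (fun z : {x : X // x ∈ S ∧ x ∉ A} × ℕ => (z.1.val, z.2)) := by
  rintro ⟨x, i⟩ ⟨y, j⟩ h
  simp only [Prod.mk.injEq] at h
  exact Prod.ext (Subtype.ext h.1) h.2

/-- the pairs of `P` with a vertex in `S` outside `A` -/
noncomputable def Pi1 {X : Type} (S A : Finset X) (P : Finset (X × ℕ)) :
    Finset ({x : X // x ∈ S ∧ x ∉ A} × ℕ) :=
  P.preimage (fun z => (z.1.val, z.2)) inj1.injOn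

theorem mem_Pi1 {X : Type} (S A : Finset X) (P : Finset (X × ℕ))
    (z : {x : X // x ∈ S ∧ x ∉ A} × ℕ) : z ∈ Pi1 S A P ↔ (z.1.val, z.2) ∈ P :=
  mem_preimage

theorem card_Pi1 {X : Type} (S A : Finset X) (P : Finset (X × ℕ)) :
    (Pi1 S A P).card ≤ P.card := by
  refine card_le_card_of_injOn (fun z => (z.1.val, z.2)) ?_ inj1.injOn
  intro z hz
  exact (mem_Pi1 S A P z).mp hz

theorem row_map {X Y : Type} (g : Y → X) (hg : Function.Injective g) (P : Finset (Y × ℕ))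
    (Q : Finset (X × ℕ)) (h : ∀ z ∈ P, (g z.1, z.2) ∈ Q) (x : Y) : row P x ≤ row Q (g x) := by
  unfold row
  refine card_le_card_of_injOn (fun z => (g z.1, z.2)) ?_ ?_
  · intro z hz
    rw [mem_coe, mem_filter] at hz
    rw [mem_coe, mem_filter]
    exact ⟨h z hz.1, congrArg g hz.2⟩
  · rintro ⟨x, i⟩ - ⟨y, j⟩ - h
    simp only [Prod.mk.injEq] at h
    exact Prod.ext (hg h.1) h.2

theorem row_Pi1 {X : Type} (S A : Finset X) (P : Finset (X × ℕ))
    (x : {x : X // x ∈ S ∧ x ∉ A}) : row (Pi1 S A P) x ≤ row P x.val :=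
  row_map Subtype.val Subtype.val_injective _ _ (fun z hz => (mem_Pi1 S A P z).mp hz) x

theorem hits_split {X Y : Type} [Fintype Y] (g : Y → X) (P : Finset (Y × ℕ))
    (Q : Finset (X × ℕ)) (S A : Finset X) (f f0 : X → ℕ) (f1 : Y → ℕ)
    (hA : ∀ x ∈ A, f x = f0 x)
    (hB : ∀ x ∈ S, x ∉ A → ∃ y, g y = x ∧ f x = f1 y ∧ ((x, f1 y) ∈ Q → (y, f1 y) ∈ P)) :
    hits Q S f ≤ hits Q A f0 + hits P univ f1 := by
  have h1 : hits Q S f ≤ ((A.filter (fun x => (x, f0 x) ∈ Q)) ∪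
      ((univ.filter (fun y : Y => (y, f1 y) ∈ P)).image g)).card := by
    apply card_le_card
    intro x hx
    have h5 := mem_filter.mp hx
    by_cases h6 : x ∈ A
    · refine mem_union_left _ (mem_filter.mpr ⟨h6, ?_⟩)
      rw [← hA x h6]
      exact h5.2
    · obtain ⟨y, hy1, hy2, hy3⟩ := hB x h5.1 h6
      refine mem_union_right _ (mem_image.mpr ⟨y, ?_, hy1⟩)
      refine mem_filter.mpr ⟨mem_univ _, hy3 ?_⟩
      rw [← hy2]
      exact h5.2
  refine le_trans h1 (le_trans (card_union_le _ _) (Nat.add_le_add_left card_image_le _))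

theorem dg_Gi {X : Type} [Fintype X] (G : SimpleGraph X) (S A : Finset X)
    (x : {x : X // x ∈ S ∧ x ∉ A}) :
    dg (Gi G S A) univ x = dg G (S.filter (fun y => y ∉ A)) x.val := by
  unfold dg
  refine card_nbij (fun y => y.val) ?_ ?_ ?_
  · intro y hy
    exact mem_filter.mpr ⟨mem_filter.mpr y.2, (mem_filter.mp hy).2⟩
  · intro y _ z _ h
    exact Subtype.ext h
  · intro y hy
    have h1 := mem_filter.mp hy
    exact ⟨⟨y, mem_filter.mp h1.1⟩, mem_filter.mpr ⟨mem_univ _, h1.2⟩, rfl⟩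

theorem t_ST1 : S_SUB → S_NAIVE → S_GCL → S_ST1 := by
  intro hSub hNaive hGcl a
  obtain ⟨D1, h1⟩ := part_sub hSub a
  obtain ⟨D2, h2⟩ := hNaive a
  obtain ⟨D3, h3⟩ := hGcl 3 (3 * a + 37)
  refine ⟨max (max D1 D2) (max D3 3), ?_⟩
  intro D hD X O _ _ G S P r hdeg hsp hr hP1 hP2 hrow hcnt hsum
  have hD1 : D1 ≤ D := le_trans (le_trans (le_max_left _ _) (le_max_left _ _)) hD
  have hD2 : D2 ≤ D := le_trans (le_trans (le_max_right _ _) (le_max_left _ _)) hD
  have hD3 : D3 ≤ D := le_trans (le_trans (le_max_left _ _) (le_max_right _ _)) hD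
  have hD30 : 3 ≤ D := le_trans (le_trans (le_max_right _ _) (le_max_right _ _)) hD
  have hDpos : (0 : ℝ) < D := by exact_mod_cast (by omega : 0 < D)
  obtain ⟨Sst, hSst⟩ : ∃ Sst : Finset X, Sst = S.filter (fun v =>
    (D : ℝ) ^ 2 / 2 ^ (a + 2) ≤ (np G S v).card) := ⟨_, rfl⟩
  obtain ⟨A, hAS, hA1, hA2, hA3⟩ := h1 D hD1 X O G S Sst P r hdeg (by
    intro v hv
    rw [hSst] at hv
    exact (mem_filter.mp hv).2) hr hP1 hP2 hrow hcnt
  obtain ⟨A', f0, hA'A, hf0, hf0p, hf0h, hf0r⟩ := h2 D hD2 X O G A Sst P r hdeg hA1 hA3 hr (by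
    intro o
    refine le_trans ?_ (hA2 o)
    rw [mul_comm]
    refine Nat.mul_le_mul_left _ ?_
    calc 12 ≤ 2 ^ 14 := by norm_num
      _ ≤ 2 ^ (a + 14) := Nat.pow_le_pow_right (by norm_num) (by omega)) hsum
  have hA'S : A' ⊆ S := hA'A.trans hAS
  -- the data for the completion
  obtain ⟨L, hL⟩ : ∃ L : {x : X // x ∈ S ∧ x ∉ A'} → Finset ℕ, L = fun x =>
    range (D + 1) \ ((A'.filter (fun y => G.Adj x.val y)).image f0) := ⟨_, rfl⟩
  have hLcard : ∀ x, (D : ℝ) + 1 ≤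
      (L x).card + (((A'.filter (fun y => G.Adj x.val y)).image f0).card : ℝ) := by
    intro x
    have h4 := Finset.le_card_sdiff ((A'.filter (fun y => G.Adj x.val y)).image f0) (range (D + 1))
    rw [card_range] at h4
    have h5 : D + 1 ≤ (L x).card + ((A'.filter (fun y => G.Adj x.val y)).image f0).card := by
      rw [hL]
      change D + 1 ≤ (range (D + 1) \ ((A'.filter (fun y => G.Adj x.val y)).image f0)).card + _
      omega
    exact_mod_cast h5
  have himg : ∀ x : X, (((A'.filter (fun y => G.Adj x y)).image f0).card : ℝ) ≤ dg G A' x := by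
    intro x
    have h4 : ((A'.filter (fun y => G.Adj x y)).image f0).card ≤ dg G A' x := card_image_le
    exact_mod_cast h4
  have hdg : ∀ x : {x : X // x ∈ S ∧ x ∉ A'},
      (dg (Gi G S A') univ x : ℝ) + dg G A' x.val = dg G S x.val := by
    intro x
    rw [dg_Gi]
    exact_mod_cast dg_split G hA'S x.val
  have hdgS : ∀ x : X, (dg G S x : ℝ) ≤ D := by
    intro x
    exact_mod_cast le_trans (dg_mono G (subset_univ S) x) (hdeg x)
  have hdgA : ∀ x : X, (dg G A' x : ℝ) ≤ D / 16384 := by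
    intro x
    have h4 : dg G A x * 2 ^ 14 ≤ D := le_trans (Nat.mul_le_mul_left _
      (Nat.pow_le_pow_right (by norm_num) (by omega))) (hA1 x)
    have h5 : dg G A' x ≤ dg G A x := dg_mono G hA'A x
    have h6 : dg G A' x * 16384 ≤ D := by
      calc dg G A' x * 16384 ≤ dg G A x * 16384 := Nat.mul_le_mul_right _ h5
        _ ≤ D := by simpa using h4
    rw [le_div_iff₀ (by norm_num)]
    exact_mod_cast h6
  have hpa : (1 : ℝ) / 2 ^ (3 * a + 37) ≤ 1 / 2 ^ (a + 2) := by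
    apply one_div_le_one_div_of_le (by positivity)
    exact pow_le_pow_right₀ (by norm_num) (by omega)
  obtain ⟨f1, hf1L, hf1p, hf1h⟩ := h3 D hD3 {x : X // x ∈ S ∧ x ∉ A'} O (Gi G S A') L
    (fun o => Pi1 S A' (P o)) r (by
      intro x
      have h4 := hdg x
      have h5 : (dg (Gi G S A') univ x : ℝ) ≤ D := by
        have h6 : (0 : ℝ) ≤ dg G A' x.val := Nat.cast_nonneg _
        linarith [hdgS x.val]
      exact_mod_cast h5) (by
      intro x
      have h4 := hdg x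
      have h5 := hLcard x
      rcases hsp x.val x.2.1 with h6 | h6
      · have h7 := himg x.val
        have h8 : (D : ℝ) / 2 ^ (3 * a + 37) ≤ 1 / 2 ^ (a + 2) * D := by
          rw [div_eq_mul_one_div, mul_comm]
          exact mul_le_mul_of_nonneg_right hpa hDpos.le
        linarith
      · have h7 := hf0r x.val (by
          rw [hSst]
          exact mem_filter.mpr ⟨x.2.1, h6⟩)
        have h8 := hdgS x.val
        linarith) (by
      intro x
      have h4 := hdg x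
      have h5 := hLcard x
      have h6 := himg x.val
      have h7 := hdgA x.val
      by_cases h8 : (D : ℝ) / 2 ≤ dg G S x.val
      · left
        norm_num
        linarith
      · right
        push Not at h8
        norm_num
        have h9 : (0 : ℝ) ≤ dg G A' x.val := Nat.cast_nonneg _
        linarith) hr (fun o => le_trans (card_Pi1 _ _ _) (hP1 o))
    (fun o => le_trans (card_Pi1 _ _ _) (hP2 o))
    (fun o x => le_trans (by exact_mod_cast row_Pi1 S A' (P o) x) (hrow o x.val)) (by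
      intro x
      refine le_trans (card_le_card ?_) (hcnt x.val)
      intro o ho
      have h4 := (mem_filter.mp ho).2
      refine mem_filter.mpr ⟨mem_univ _, ?_⟩
      have h5 := row_Pi1 S A' (P o) x
      omega) (by
      intro x
      refine le_trans (sum_le_sum (g := fun o => (row (P o) x.val : ℝ) * (1 / 2) ^ (r o)) ?_) ?_
      · intro o _
        refine mul_le_mul_of_nonneg_right ?_ (by positivity)
        exact_mod_cast row_Pi1 S A' (P o) x
      · refine le_trans (hsum x.val) ?_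
        apply div_le_div_of_nonneg_left hDpos.le (by positivity)
        exact pow_le_pow_right₀ (by norm_num) (by omega))
  have hf1L' : ∀ x : {x : X // x ∈ S ∧ x ∉ A'}, f1 x ≤ D ∧
      ∀ y ∈ A', G.Adj x.val y → f0 y ≠ f1 x := by
    intro x
    have h4 := hf1L x
    rw [hL] at h4
    have h5 := mem_sdiff.mp h4
    refine ⟨by have := mem_range.mp h5.1; omega, ?_⟩
    intro y hy hxy h6
    exact h5.2 (mem_image.mpr ⟨y, mem_filter.mpr ⟨hy, hxy⟩, h6⟩)
  obtain ⟨f, hf⟩ : ∃ f : X → ℕ, f = fun x =>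
    if h : x ∈ S ∧ x ∉ A' then f1 ⟨x, h⟩ else f0 x := ⟨_, rfl⟩
  have hfa : ∀ x, x ∈ A' → f x = f0 x := by
    intro x hx
    rw [hf]
    exact dif_neg (fun h => h.2 hx)
  have hfb : ∀ x (h : x ∈ S ∧ x ∉ A'), f x = f1 ⟨x, h⟩ := by
    intro x h
    rw [hf]
    exact dif_pos h
  refine ⟨f, ?_, ?_, ?_⟩
  · intro x hx
    by_cases h4 : x ∈ A'
    · rw [hfa x h4]
      exact hf0 x h4
    · rw [hfb x ⟨hx, h4⟩]
      exact (hf1L' ⟨x, ⟨hx, h4⟩⟩).1
  · intro x hx y hy hxy
    by_cases h4 : x ∈ A'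
    · by_cases h5 : y ∈ A'
      · rw [hfa x h4, hfa y h5]
        exact hf0p x h4 y h5 hxy
      · rw [hfa x h4, hfb y ⟨hy, h5⟩]
        exact (hf1L' ⟨y, ⟨hy, h5⟩⟩).2 x h4 hxy.symm
    · by_cases h5 : y ∈ A'
      · rw [hfb x ⟨hx, h4⟩, hfa y h5]
        exact ((hf1L' ⟨x, ⟨hx, h4⟩⟩).2 y h5 hxy).symm
      · rw [hfb x ⟨hx, h4⟩, hfb y ⟨hy, h5⟩]
        exact hf1p ⟨x, ⟨hx, h4⟩⟩ ⟨y, ⟨hy, h5⟩⟩ hxy
  · intro o
    have h4 : hits (P o) S f ≤ hits (P o) A' f0 + hits (Pi1 S A' (P o)) univ f1 :=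
      hits_split Subtype.val _ _ _ _ _ _ _ hfa (fun x hx h6 => ⟨⟨x, ⟨hx, h6⟩⟩, rfl,
        hfb x ⟨hx, h6⟩, fun h7 => (mem_Pi1 _ _ _ _).mpr h7⟩)
    have h5 := hf0h o
    have h6 := hf1h o
    refine le_trans (le_trans h4 (Nat.add_le_add h5 h6)) (le_of_eq ?_)
    ring

end Pool.Agent.K1H4.HYC
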